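import Pool.Agent.R246.SK.Defs

/-!
# SK-POL: polarization of Parseval (MP_3f9991_gt)
-/

set_option autoImplicit false

open scoped ContDiff ComplexConjugate
open Filter MeasureTheory

namespace Pool.Agent.R874.SK.Pol

open Pool.Agent.R246.SK

variable {a : ℝ → ℝ} {f g h : ℝ → ℂ}

lemma ipc (ha : PP a) (hf : SP f) (hg : SP g) :
    Continuous (fun t => f t * conj (g t) / (a t : ℂ)) := by
  have h1 : Continuous f := hf.1.continuous
  have h2 : Continuous g := hg.1.continuous
  have h3 : Continuous a := ha.1.continuous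
  refine Continuous.div (h1.mul (Complex.continuous_conj.comp h2))
    (Complex.continuous_ofReal.comp h3) fun t => ?_
  exact_mod_cast (ha.2.2 t).ne'

lemma sp_lin (hf : SP f) (hg : SP g) (c : ℂ) : SP (fun t => f t + c * g t) :=
  ⟨hf.1.add (contDiff_const.mul hg.1), fun t => by
    show f (t + 2 * Real.pi) + c * g (t + 2 * Real.pi) = f t + c * g t
    rw [hf.2 t, hg.2 t]⟩

lemma ip_left (ha : PP a) (hf : SP f) (hg : SP g) (hh : SP h) (c : ℂ) :
    ip a (fun t => f t + c * g t) h = ip a f h + c * ip a g h := by
  unfold ip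
  rw [← intervalIntegral.integral_const_mul, ← intervalIntegral.integral_add]
  · congr 1
    funext t
    ring
  · exact (ipc ha hf hh).intervalIntegrable _ _
  · exact (continuous_const.mul (ipc ha hg hh)).intervalIntegrable _ _

lemma ip_right (ha : PP a) (hf : SP f) (hg : SP g) (hh : SP h) (c : ℂ) :
    ip a h (fun t => f t + c * g t) = ip a h f + conj c * ip a h g := by
  unfold ip
  rw [← intervalIntegral.integral_const_mul, ← intervalIntegral.integral_add]
  · congr 1
    funext t
    rw [map_add, map_mul]
    ring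
  · exact (ipc ha hh hf).intervalIntegrable _ _
  · exact (continuous_const.mul (ipc ha hh hg)).intervalIntegrable _ _

lemma ip_self (f : ℝ → ℂ) : (((ip a f f).re : ℝ) : ℂ) = ip a f f := by
  have h1 : ip a f f = ((∫ t in (0 : ℝ)..(2 * Real.pi), ‖f t‖ ^ 2 / a t : ℝ) : ℂ) := by
    unfold ip
    rw [← intervalIntegral.integral_ofReal]
    congr 1
    funext t
    rw [Complex.mul_conj']
    push_cast
    rfl
  rw [h1, Complex.ofReal_re]

lemma quad (ha : PP a) (hf : SP f) (hg : SP g) (c : ℂ) :
    ip a (fun t => f t + c * g t) (fun t => f t + c * g t) =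
      ip a f f + conj c * ip a f g + c * ip a g f + c * conj c * ip a g g := by
  rw [ip_left ha hf hg (sp_lin hf hg c), ip_right ha hf hg hf, ip_right ha hf hg hg]
  ring

lemma hs_congr {ι : Type} {f f' : ι → ℂ} {x x' : ℂ} (h : HasSum f x) (hf : ∀ i, f' i = f i)
    (hx : x' = x) : HasSum f' x' := by
  rw [hx, funext hf]
  exact h

theorem s_pol : S_POL := by
  intro ι a e ha he hcp f g hf hg
  have key : ∀ c : ℂ, HasSum (fun i => ((ip a f (e i)) + c * ip a g (e i)) *
      conj ((ip a f (e i)) + c * ip a g (e i)))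
      (ip a f f + conj c * ip a f g + c * ip a g f + c * conj c * ip a g g) := by
    intro c
    have h1 := hcp (fun t => f t + c * g t) (sp_lin hf hg c)
    have h2 := Complex.hasSum_ofReal.2 h1
    rw [ip_self, quad ha hf hg] at h2
    have h3 : (fun i => ((ip a f (e i)) + c * ip a g (e i)) *
        conj ((ip a f (e i)) + c * ip a g (e i))) =
        fun i => ((‖ip a (fun t => f t + c * g t) (e i)‖ ^ 2 : ℝ) : ℂ) := by
      funext i
      rw [Complex.mul_conj', ip_left ha hf hg (he i)]
      push_cast
      rfl
    rw [h3]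
    exact h2
  have h1 := ((((key 1).sub (key (-1))).add (((key Complex.I).sub (key (-Complex.I))).mul_left
    Complex.I)).mul_left (1 / 4 : ℂ))
  have hI := Complex.I_sq
  refine hs_congr h1 (fun i => ?_) ?_
  · simp only [map_add, map_mul, map_neg, map_one, Complex.conj_I]
    ring_nf
    rw [hI]
    ring
  · simp only [map_neg, map_one, Complex.conj_I]
    ring_nf
    rw [hI]
    ring

end Pool.Agent.R874.SK.Pol
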