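import Pool.Agent.R246.SK.Defs

/-!
# SK-PSI1: the explicit eigenfunctions of `a D` (MP_3f9991_gt)
-/

set_option autoImplicit false

open scoped ContDiff ComplexConjugate
open Filter MeasureTheory

namespace Pool.Agent.R874.SK.Psi1

open Pool.Agent.R246.SK

variable {a : ℝ → ℝ} {f g : ℝ → ℂ}

lemma inv_cd (ha : PP a) : ContDiff ℝ ∞ (fun t => 1 / a t) :=
  contDiff_const.div ha.1 fun t => (ha.2.2 t).ne'

lemma inv_per (ha : PP a) (t : ℝ) : 1 / a (t + 2 * Real.pi) = 1 / a t := by rw [ha.2.1]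

lemma LL_pos (ha : PP a) : 0 < LL a := by
  unfold LL
  apply intervalIntegral.intervalIntegral_pos_of_pos
  · exact (inv_cd ha).continuous.intervalIntegrable _ _
  · intro x
    exact one_div_pos.2 (ha.2.2 x)
  · exact Real.two_pi_pos

lemma ss_deriv (ha : PP a) (t : ℝ) : HasDerivAt (ss a) (1 / a t) t :=
  ((inv_cd ha).continuous.integral_hasStrictDerivAt 0 t).hasDerivAt

lemma ss_cd (ha : PP a) : ContDiff ℝ ∞ (ss a) := by
  rw [contDiff_infty_iff_deriv]
  refine ⟨fun t => (ss_deriv ha t).differentiableAt, ?_⟩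
  rw [show deriv (ss a) = fun t => 1 / a t from funext fun t => (ss_deriv ha t).deriv]
  exact inv_cd ha

lemma ss_per (ha : PP a) (t : ℝ) : ss a (t + 2 * Real.pi) = ss a t + LL a := by
  unfold ss LL
  have hc := (inv_cd ha).continuous
  have h1 : ∫ x in (2 * Real.pi)..(t + 2 * Real.pi), 1 / a x = ∫ x in (0 : ℝ)..t, 1 / a x := by
    have h2 := intervalIntegral.integral_comp_add_right (a := 0) (b := t) (fun x => 1 / a x)
      (2 * Real.pi)
    rw [zero_add] at h2
    rw [← h2]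
    congr 1
    funext x
    exact inv_per ha x
  rw [← intervalIntegral.integral_add_adjacent_intervals (hc.intervalIntegrable 0 (2 * Real.pi))
    (hc.intervalIntegrable (2 * Real.pi) (t + 2 * Real.pi)), h1, add_comm]

lemma psi_deriv (ha : PP a) (n : ℤ) (t : ℝ) :
    HasDerivAt (psi a n) (psi a n t * (Complex.I * ((mu a n * (1 / a t) : ℝ) : ℂ))) t := by
  have h1 : HasDerivAt (fun t => ((mu a n * ss a t : ℝ) : ℂ)) ((mu a n * (1 / a t) : ℝ) : ℂ) t :=
    ((ss_deriv ha t).const_mul (mu a n)).ofReal_comp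
  have h2 := ((h1.const_mul Complex.I).cexp).const_mul ((1 / Real.sqrt (LL a) : ℝ) : ℂ)
  unfold psi
  refine h2.congr_deriv ?_
  ring

lemma psi_sp (ha : PP a) (n : ℤ) : SP (psi a n) := by
  refine ⟨?_, fun t => ?_⟩
  · unfold psi
    have h1 : ContDiff ℝ ∞ (fun t => ((mu a n * ss a t : ℝ) : ℂ)) :=
      Complex.ofRealCLM.contDiff.comp (contDiff_const.mul (ss_cd ha))
    exact contDiff_const.mul ((contDiff_const.mul h1).cexp)
  · unfold psi
    rw [ss_per ha, mul_add]
    have h1 : mu a n * LL a = 2 * Real.pi * n := by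
      unfold mu
      rw [div_mul_cancel₀ _ (LL_pos ha).ne']
    rw [h1]
    congr 1
    push_cast
    rw [mul_add, Complex.exp_add]
    have h2 : Complex.I * (2 * (Real.pi : ℂ) * (n : ℂ)) = n * (2 * Real.pi * Complex.I) := by ring
    rw [h2, Complex.exp_int_mul_two_pi_mul_I, mul_one]

lemma psi_norm (a : ℝ → ℝ) (n : ℤ) (t : ℝ) : ‖psi a n t‖ = 1 / Real.sqrt (LL a) := by
  unfold psi
  rw [norm_mul, Complex.norm_real, Real.norm_of_nonneg (by positivity)]
  have h : ‖Complex.exp (Complex.I * ((mu a n * ss a t : ℝ) : ℂ))‖ = 1 := by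
    rw [mul_comm]
    exact Complex.norm_exp_ofReal_mul_I _
  rw [h, mul_one]

/-! ### periodic functions -/

lemma sp_deriv (hf : SP f) : SP (deriv f) := by
  refine ⟨(contDiff_infty_iff_deriv.1 hf.1).2, fun t => ?_⟩
  have h1 : (fun s => f (s + 2 * Real.pi)) = f := funext hf.2
  have h2 := deriv_comp_add_const f (2 * Real.pi) t
  rw [h1] at h2
  exact h2.symm

lemma sp_hd (hf : SP f) (t : ℝ) : HasDerivAt f (_root_.deriv f t) t :=
  ((contDiff_infty_iff_deriv.1 hf.1).1 t).hasDerivAt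

lemma sp_mul (hf : SP f) (hg : SP g) : SP (fun t => f t * g t) :=
  ⟨hf.1.mul hg.1, fun t => by
    show f (t + 2 * Real.pi) * g (t + 2 * Real.pi) = f t * g t
    rw [hf.2, hg.2]⟩

lemma sp_a (ha : PP a) : SP (fun t => (a t : ℂ)) :=
  ⟨Complex.ofRealCLM.contDiff.comp ha.1, fun t => by
    show ((a (t + 2 * Real.pi) : ℝ) : ℂ) = a t
    rw [ha.2.1]⟩

lemma sp_ee (k : ℤ) : SP (ee k) := by
  refine ⟨?_, fun t => ?_⟩
  · unfold ee
    exact (contDiff_const.mul Complex.ofRealCLM.contDiff).cexp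
  · unfold ee
    push_cast
    rw [mul_add, Complex.exp_add]
    have h2 : Complex.I * (k : ℂ) * (2 * (Real.pi : ℂ)) = k * (2 * Real.pi * Complex.I) := by ring
    rw [h2, Complex.exp_int_mul_two_pi_mul_I, mul_one]

lemma parts (hf : SP f) (hg : SP g) :
    ∫ t in (0 : ℝ)..(2 * Real.pi), _root_.deriv f t * g t =
      -∫ t in (0 : ℝ)..(2 * Real.pi), f t * _root_.deriv g t := by
  have h1 := intervalIntegral.integral_mul_deriv_eq_deriv_mul (a := 0) (b := 2 * Real.pi)
    (u := f) (v := g) (u' := _root_.deriv f) (v' := _root_.deriv g)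
    (fun t _ => sp_hd hf t) (fun t _ => sp_hd hg t)
    ((sp_deriv hf).1.continuous.intervalIntegrable _ _)
    ((sp_deriv hg).1.continuous.intervalIntegrable _ _)
  have h2 : f (2 * Real.pi) = f 0 := by
    have := hf.2 0
    rwa [zero_add] at this
  have h3 : g (2 * Real.pi) = g 0 := by
    have := hg.2 0
    rwa [zero_add] at this
  rw [h2, h3, sub_self, zero_sub] at h1
  rw [h1, neg_neg]

/-- the basic step -/
lemma step (ha : PP a) {n : ℤ} (hmu : mu a n ≠ 0) (hg : SP g) :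
    ∫ t in (0 : ℝ)..(2 * Real.pi), psi a n t * g t =
      (Complex.I / (mu a n : ℂ)) * ∫ t in (0 : ℝ)..(2 * Real.pi),
        psi a n t * _root_.deriv (fun s => (a s : ℂ) * g s) t := by
  have h1 := parts (psi_sp ha n) (sp_mul (sp_a ha) hg)
  have hmu' : (mu a n : ℂ) ≠ 0 := by exact_mod_cast hmu
  have h2 : ∀ t, _root_.deriv (psi a n) t * ((a t : ℂ) * g t) =
      (Complex.I * mu a n) * (psi a n t * g t) := by
    intro t
    rw [(psi_deriv ha n t).deriv]
    have hat : (a t : ℂ) ≠ 0 := by exact_mod_cast (ha.2.2 t).ne'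
    push_cast
    field_simp
  simp only [h2] at h1
  rw [intervalIntegral.integral_const_mul] at h1
  have h3 : ∫ t in (0 : ℝ)..(2 * Real.pi), psi a n t * g t =
      (-Complex.I / (mu a n : ℂ)) * ((Complex.I * mu a n) *
        ∫ t in (0 : ℝ)..(2 * Real.pi), psi a n t * g t) := by
    have hI := Complex.I_mul_I
    field_simp
    rw [Complex.I_sq]
    ring
  rw [h3, h1]
  ring

/-- the second derivative -/
lemma dd_ee (ha : PP a) (k : ℤ) (t : ℝ) :
    _root_.deriv (fun s => (a s : ℂ) * _root_.deriv (fun r => (a r : ℂ) * ee k r) s) t =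
      (((_root_.deriv a t ^ 2 + a t * _root_.deriv (_root_.deriv a) t : ℝ) : ℂ) +
        Complex.I * k * ((3 * (a t * _root_.deriv a t) : ℝ) : ℂ) -
        (k : ℂ) ^ 2 * ((a t ^ 2 : ℝ) : ℂ)) * ee k t := by
  have h0 := contDiff_infty_iff_deriv.1 ha.1
  have h0' := contDiff_infty_iff_deriv.1 h0.2
  have hda : ∀ t, HasDerivAt (fun s => (a s : ℂ)) ((_root_.deriv a t : ℝ) : ℂ) t := fun t =>
    (h0.1 t).hasDerivAt.ofReal_comp
  have hda2 : ∀ t, HasDerivAt (fun s => ((_root_.deriv a s : ℝ) : ℂ))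
      ((_root_.deriv (_root_.deriv a) t : ℝ) : ℂ) t := fun t =>
    (h0'.1 t).hasDerivAt.ofReal_comp
  have hde : ∀ t, HasDerivAt (ee k) (Complex.I * k * ee k t) t := by
    intro t
    have h1 : HasDerivAt (fun s : ℝ => Complex.I * (k : ℂ) * (s : ℂ)) (Complex.I * (k : ℂ) * 1) t :=
      (HasDerivAt.ofReal_comp (hasDerivAt_id t)).const_mul _
    have h2 := h1.cexp
    unfold ee
    refine h2.congr_deriv ?_
    ring
  have h1 : (fun s => _root_.deriv (fun r => (a r : ℂ) * ee k r) s) =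
      fun s => (((_root_.deriv a s : ℝ) : ℂ) + Complex.I * k * (a s : ℂ)) * ee k s := by
    funext s
    have h : HasDerivAt (fun r => (a r : ℂ) * ee k r) (((_root_.deriv a s : ℝ) : ℂ) * ee k s +
      (a s : ℂ) * (Complex.I * k * ee k s)) s := (hda s).mul (hde s)
    rw [h.deriv]
    ring
  have h2 : (fun s => (a s : ℂ) * _root_.deriv (fun r => (a r : ℂ) * ee k r) s) =
      fun s => (a s : ℂ) * ((((_root_.deriv a s : ℝ) : ℂ) + Complex.I * k * (a s : ℂ)) * ee k s) := by
    funext s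
    rw [congrFun h1 s]
  rw [h2]
  have h3 : HasDerivAt (fun s => (a s : ℂ) * ((((_root_.deriv a s : ℝ) : ℂ) +
      Complex.I * k * (a s : ℂ)) * ee k s))
      (((_root_.deriv a t : ℝ) : ℂ) * ((((_root_.deriv a t : ℝ) : ℂ) +
      Complex.I * k * (a t : ℂ)) * ee k t) + (a t : ℂ) * ((((_root_.deriv (_root_.deriv a) t : ℝ) : ℂ) +
      Complex.I * k * ((_root_.deriv a t : ℝ) : ℂ)) * ee k t + (((_root_.deriv a t : ℝ) : ℂ) +
      Complex.I * k * (a t : ℂ)) * (Complex.I * k * ee k t))) t :=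
    (hda t).mul ((((hda2 t).add ((hda t).const_mul (Complex.I * k)))).mul (hde t))
  rw [h3.deriv]
  have hI := Complex.I_sq
  push_cast
  ring_nf
  rw [hI]
  ring

theorem s_psi1 : S_PSI1 := by
  intro a ha
  have hL := LL_pos ha
  refine ⟨hL, fun n => ⟨psi_sp ha n, fun t => ?_⟩, ?_⟩
  · rw [(psi_deriv ha n t).deriv]
    have hat : (a t : ℂ) ≠ 0 := by exact_mod_cast (ha.2.2 t).ne'
    push_cast
    field_simp
  -- the bound
  have h0 := contDiff_infty_iff_deriv.1 ha.1
  have h0' := contDiff_infty_iff_deriv.1 h0.2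
  set F : ℝ → ℝ := fun t => deriv a t ^ 2 + |a t * deriv (deriv a) t| + 2 * |a t * deriv a t| + a t ^ 2
    with hF
  have hFc : Continuous F := by
    have c0 := ha.1.continuous
    have c1 := h0.2.continuous
    have c2 := h0'.2.continuous
    exact (((c1.pow 2).add (c0.mul c2).abs).add (continuous_const.mul (c0.mul c1).abs)).add
      (c0.pow 2)
  obtain ⟨A, hA⟩ := isCompact_Icc.exists_bound_of_continuousOn
    (s := Set.Icc (0 : ℝ) (2 * Real.pi)) hFc.continuousOn
  have hA0 : 0 ≤ A := (norm_nonneg _).trans (hA 0 ⟨le_rfl, Real.two_pi_pos.le⟩)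
  have hp := Real.pi_pos
  set r := 1 / Real.sqrt (LL a) with hr
  have hr0 : 0 ≤ r := by positivity
  set M := (LL a / (2 * Real.pi)) ^ 2 with hM
  refine ⟨r + 2 * (A * r * M), fun n k => ?_⟩
  have hk1 : (1 : ℝ) ≤ 1 + |(k : ℝ)| := by linarith [abs_nonneg (k : ℝ)]
  have hn1 : (0 : ℝ) < 1 + (n : ℝ) ^ 2 := by positivity
  rw [le_div_iff₀ hn1]
  by_cases hn : n = 0
  · have h1 : ‖fc (psi a n) k‖ ≤ r := by
      unfold fc
      rw [norm_mul, Complex.norm_real, Real.norm_of_nonneg (by positivity)]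
      have h2 : ‖∫ t in (0 : ℝ)..(2 * Real.pi), psi a n t * ee (-k) t‖ ≤
          r * |2 * Real.pi - 0| := by
        apply intervalIntegral.norm_integral_le_of_norm_le_const
        intro t _
        rw [norm_mul, psi_norm]
        have h3 : ‖ee (-k) t‖ = 1 := by
          unfold ee
          rw [mul_assoc, mul_comm, ← Complex.ofReal_intCast, ← Complex.ofReal_mul]
          exact Complex.norm_exp_ofReal_mul_I _
        rw [h3, mul_one]
      rw [sub_zero, abs_of_pos Real.two_pi_pos] at h2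
      calc 1 / (2 * Real.pi) * ‖∫ t in (0 : ℝ)..(2 * Real.pi), psi a n t * ee (-k) t‖
          ≤ 1 / (2 * Real.pi) * (r * (2 * Real.pi)) := by gcongr
        _ = r := by field_simp
    rw [hn]
    push_cast
    rw [hn] at h1
    have h3 : (1 : ℝ) ≤ (1 + |(k : ℝ)|) ^ 2 := one_le_pow₀ hk1
    have h4 : 0 ≤ 2 * (A * r * M) := by positivity
    nlinarith [norm_nonneg (fc (psi a 0) k)]
  · have hnR : (n : ℝ) ≠ 0 := by exact_mod_cast hn
    have hmu : mu a n ≠ 0 := by
      unfold mu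
      positivity
    have h1 : ∫ t in (0 : ℝ)..(2 * Real.pi), psi a n t * ee (-k) t =
        (Complex.I / (mu a n : ℂ)) ^ 2 * ∫ t in (0 : ℝ)..(2 * Real.pi),
          psi a n t * deriv (fun s => (a s : ℂ) * deriv (fun r => (a r : ℂ) * ee (-k) r) s) t := by
      rw [step ha hmu (sp_ee (-k)), step ha hmu (sp_deriv (sp_mul (sp_a ha) (sp_ee (-k))))]
      ring
    have h2 : ‖∫ t in (0 : ℝ)..(2 * Real.pi),
          psi a n t * deriv (fun s => (a s : ℂ) * deriv (fun r => (a r : ℂ) * ee (-k) r) s) t‖ ≤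
          (r * (A * (1 + |(k : ℝ)|) ^ 2)) * |2 * Real.pi - 0| := by
      apply intervalIntegral.norm_integral_le_of_norm_le_const
      intro t ht
      rw [Set.uIoc_of_le Real.two_pi_pos.le] at ht
      have hAt := hA t ⟨ht.1.le, ht.2⟩
      rw [norm_mul, psi_norm, dd_ee ha, norm_mul]
      have h3 : ‖ee (-k) t‖ = 1 := by
        unfold ee
        rw [mul_assoc, mul_comm, ← Complex.ofReal_intCast, ← Complex.ofReal_mul]
        exact Complex.norm_exp_ofReal_mul_I _
      rw [h3, mul_one]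
      apply mul_le_mul_of_nonneg_left _ hr0
      rw [hF, Real.norm_eq_abs] at hAt
      simp only at hAt
      have hF0 := (le_abs_self _).trans hAt
      refine (norm_sub_le _ _).trans ((add_le_add (norm_add_le _ _) le_rfl).trans ?_)
      rw [norm_mul, norm_mul, norm_mul, Complex.norm_real, Complex.norm_real, Complex.norm_real,
        Complex.norm_I, one_mul, norm_pow]
      have hk : ‖((-k : ℤ) : ℂ)‖ = |(k : ℝ)| := by
        rw [Complex.norm_intCast]
        push_cast
        rw [abs_neg]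
      rw [hk, Real.norm_eq_abs, Real.norm_eq_abs, Real.norm_eq_abs]
      set K := |(k : ℝ)|
      have hK : 0 ≤ K := abs_nonneg _
      have e1 : |deriv a t ^ 2 + a t * deriv (deriv a) t| ≤
          deriv a t ^ 2 + |a t * deriv (deriv a) t| := by
        refine (abs_add_le _ _).trans ?_
        rw [abs_of_nonneg (sq_nonneg _)]
      have e2 : |3 * (a t * deriv a t)| = 3 * |a t * deriv a t| := by
        rw [abs_mul, abs_of_pos (by norm_num : (0 : ℝ) < 3)]
      have e3 : |a t ^ 2| = a t ^ 2 := abs_of_nonneg (sq_nonneg _)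
      rw [e2, e3]
      have p1 : 0 ≤ |a t * deriv a t| := abs_nonneg _
      have p2 : 0 ≤ |a t * deriv (deriv a) t| := abs_nonneg _
      have p3 : 0 ≤ a t ^ 2 := sq_nonneg _
      have p4 : 0 ≤ deriv a t ^ 2 := sq_nonneg _
      have q1 : deriv a t ^ 2 + |a t * deriv (deriv a) t| ≤ A := by linarith
      have q2 : 3 * |a t * deriv a t| ≤ 2 * A := by linarith
      have q3 : a t ^ 2 ≤ A := by linarith
      nlinarith [mul_le_mul_of_nonneg_left q2 hK, mul_le_mul_of_nonneg_left q3 (sq_nonneg K)]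
    rw [sub_zero, abs_of_pos Real.two_pi_pos] at h2
    have h4 : ‖fc (psi a n) k‖ ≤ 1 / (mu a n) ^ 2 * (r * (A * (1 + |(k : ℝ)|) ^ 2)) := by
      unfold fc
      rw [h1, norm_mul, Complex.norm_real, Real.norm_of_nonneg (by positivity), norm_mul, norm_pow,
        norm_div, Complex.norm_I, Complex.norm_real, div_pow, one_pow, Real.norm_eq_abs, sq_abs]
      calc 1 / (2 * Real.pi) * (1 / mu a n ^ 2 * ‖∫ t in (0 : ℝ)..(2 * Real.pi),
          psi a n t * deriv (fun s => (a s : ℂ) * deriv (fun r => (a r : ℂ) * ee (-k) r) s) t‖)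
          ≤ 1 / (2 * Real.pi) * (1 / mu a n ^ 2 * ((r * (A * (1 + |(k : ℝ)|) ^ 2)) *
            (2 * Real.pi))) := by gcongr
        _ = _ := by field_simp
    have h5 : 1 / (mu a n) ^ 2 = M / (n : ℝ) ^ 2 := by
      unfold mu
      rw [hM]
      field_simp
    rw [h5] at h4
    have h6 : (1 : ℝ) ≤ (n : ℝ) ^ 2 := by
      have : (1 : ℤ) ≤ n ^ 2 := by
        have := sq_pos_of_ne_zero hn
        omega
      exact_mod_cast this
    have h7 : (1 + (n : ℝ) ^ 2) / (n : ℝ) ^ 2 ≤ 2 := by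
      rw [div_le_iff₀ (by positivity)]
      linarith
    calc ‖fc (psi a n) k‖ * (1 + (n : ℝ) ^ 2)
        ≤ (M / (n : ℝ) ^ 2 * (r * (A * (1 + |(k : ℝ)|) ^ 2))) * (1 + (n : ℝ) ^ 2) := by gcongr
      _ = ((1 + (n : ℝ) ^ 2) / (n : ℝ) ^ 2) * (A * r * M * (1 + |(k : ℝ)|) ^ 2) := by ring
      _ ≤ 2 * (A * r * M * (1 + |(k : ℝ)|) ^ 2) := by gcongr
      _ ≤ (r + 2 * (A * r * M)) * (1 + |(k : ℝ)|) ^ 2 := by
        have : 0 ≤ r * (1 + |(k : ℝ)|) ^ 2 := by positivity
        linarith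

end Pool.Agent.R874.SK.Psi1
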